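import Mathlib
import Pool.Agent.N788.Sys.One
import Pool.Agent.N675.Q.Fin
import Pool.Agent.N40.QP.ORTH

/-! Clusters and additive twists: symmetric boxes and weights. -/

set_option autoImplicit false
set_option maxHeartbeats 4000000

namespace Pool.Agent.N788.QP

open Finset Topology Pool.Agent.N675 Pool.Agent.N675.M Pool.Agent.N781.A Pool.Agent.N781.FV
open Pool.Agent.N788.Sys
open Pool.Agent.N675.Q (om aff SB PB NP S_BLK curry_sum)
open Pool.Agent.N40.QP (sL sv SBx)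

section

variable {κ : Type} [Fintype κ] [DecidableEq κ]

lemma sq_of_sum' (B : κ → ℕ) (hB : ∀ j, 0 < B j) (c : (κ → ℤ) → ℂ) (ε : ℝ) (hε : 0 < ε)
    (h : ε * ∏ j, (B j : ℝ) < ∑ y ∈ Box B, ‖c y‖) : ε ^ 2 ≤ ER B (fun y => ‖c y‖ ^ 2) :=
  sq_of_sum B 1 hB one_pos c c (fun y => by simp) ε hε (by simpa using h)

/-- from the symmetric box to an orthant -/
lemma orth_gen (B : ℕ) (hB : 0 < B) (e : ℝ) (he : 0 < e) : ∃ (e' : ℝ) (K : ℕ), 0 < e' ∧
    ∀ D : κ → ℕ, (∀ j, K ≤ D j) → ∀ G : (κ → ℤ) → ℝ, (∀ y, 0 ≤ G y) → (∀ y, G y ≤ 1) →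
      e * ∏ j, (D j : ℝ) < ∑ y ∈ SBx (fun j => B * D j), G y →
      ∃ σ : κ → Bool, e' * ∏ j, ((B * D j : ℕ) : ℝ) < ∑ y ∈ Box (fun j => B * D j),
        G (sv σ y) := by
  set c := Fintype.card κ with hc
  set e' : ℝ := e / ((B : ℝ) ^ c * 2 ^ (c + 1)) with he'
  have hBr : (0 : ℝ) < B := by exact_mod_cast hB
  have he'0 : 0 < e' := by positivity
  set K₁ : ℕ := ⌈2 * c * (3 * B : ℝ) ^ c / e⌉₊ with hK₁
  refine ⟨e', K₁ + 1, he'0, fun D hD G hG0 hG1 hbig => ?_⟩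
  by_contra hcon
  push Not at hcon
  have hD1 : ∀ j, 1 ≤ D j := fun j => by have := hD j; omega
  have hP : (0 : ℝ) < ∏ j, (D j : ℝ) :=
    Finset.prod_pos fun j _ => by exact_mod_cast hD1 j
  have hbox : ∀ σ : κ → Bool, ∑ y ∈ Box (fun j => B * D j), G (sv σ y) ≤
        e / 2 ^ (c + 1) * ∏ j, (D j : ℝ) := by
    intro σ
    refine (hcon σ).trans (le_of_eq ?_)
    have h6 : ∏ j, ((B * D j : ℕ) : ℝ) = (B : ℝ) ^ c * ∏ j, (D j : ℝ) := by
      push_cast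
      rw [Finset.prod_mul_distrib, Finset.prod_const, Finset.card_univ]
    rw [h6, he']
    field_simp
  have hzero : ∀ j, (((SBx fun j => B * D j).filter fun y => y j = 0).card : ℝ) ≤
      (3 * B : ℝ) ^ c * (∏ i, (D i : ℝ)) / ((K₁ : ℝ) + 1) := by
    intro j
    rw [le_div_iff₀ (by positivity)]
    refine le_trans ?_ (Pool.Agent.N40.QP.zero_card B hB D hD1 j)
    refine mul_le_mul_of_nonneg_left ?_ (Nat.cast_nonneg _)
    have := hD j
    exact_mod_cast (by omega : K₁ + 1 ≤ D j)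
  have hK₁' : 2 * c * (3 * B : ℝ) ^ c ≤ e * ((K₁ : ℝ) + 1) := by
    have h1 : 2 * c * (3 * B : ℝ) ^ c / e ≤ K₁ := Nat.le_ceil _
    rw [div_le_iff₀ he] at h1
    nlinarith
  have hsplit := Pool.Agent.N40.QP.split B D G hG0 hG1
  have h1 : ∑ j : κ, (((SBx fun j => B * D j).filter fun y => y j = 0).card : ℝ) ≤
      e / 2 * ∏ j, (D j : ℝ) := by
    calc _ ≤ ∑ _j : κ, (3 * B : ℝ) ^ c * (∏ i, (D i : ℝ)) / ((K₁ : ℝ) + 1) :=
          Finset.sum_le_sum fun j _ => hzero j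
      _ = (c * (3 * B : ℝ) ^ c) * (∏ i, (D i : ℝ)) / ((K₁ : ℝ) + 1) := by
          rw [Finset.sum_const, Finset.card_univ, nsmul_eq_mul]
          ring
      _ ≤ _ := by
          rw [div_le_iff₀ (by positivity)]
          have h2 : c * (3 * B : ℝ) ^ c ≤ e / 2 * ((K₁ : ℝ) + 1) := by linarith
          nlinarith
  have h2 : ∑ σ : κ → Bool, ∑ y ∈ Box (fun j => B * D j), G (sv σ y)
      ≤ e / 2 * ∏ j, (D j : ℝ) := by
    calc _ ≤ ∑ _σ : κ → Bool, e / 2 ^ (c + 1) * ∏ j, (D j : ℝ) :=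
          Finset.sum_le_sum fun σ _ => hbox σ
      _ = _ := by
          rw [Finset.sum_const, Finset.card_univ, Fintype.card_fun, Fintype.card_bool,
            nsmul_eq_mul, ← hc, pow_succ]
          push_cast
          field_simp
  linarith

end

/-- from the weights to an orthant -/
theorem of_weighted (hBLK : S_BLK) {s r k : ℕ} (t : Fin s → ℕ) (a : Fin k → ℤ)
    (L : Fin k → Fin s × Fin r → ℤ) (l : ∀ g, Fin (t g) → Fin r → ℤ) (c : ∀ g, Fin (t g) → ℤ)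
    (hk : 0 < k) (ha : ∀ i, a i ≠ 0) (hl : ∀ g j, l g j ≠ 0) (hNP : ∀ g, NP (l g) (c g))
    (R : ℕ) (δ ε : ℝ) (hδ : 0 < δ) (hε : 0 < ε) :
    ∃ (B : ℕ) (ε' : ℝ) (K : ℕ), 0 < B ∧ 0 < ε' ∧ ∀ (D : Fin s → ℕ) (x : ℕ), (∀ g, K ≤ D g) →
      (∀ g, D g ≤ R * x) → ∀ F : Fin k → ℤ → ℂ, (∀ i m, ‖F i m‖ ≤ 1) →
      ε * ∏ g, (D g : ℝ) ^ r < ∑ y ∈ Fintype.piFinset (fun g => PB r (D g)),
          (∏ g, ∏ j, om δ (D g) (aff (l g j) (c g j) (y g)))
            * ‖M.cc a L F x (fun q => y q.1 q.2)‖ →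
      ∃ σ : Fin s × Fin r → Bool, ε' * ∏ q : Fin s × Fin r, ((B * D q.1 : ℕ) : ℝ) <
        ∑ y ∈ Box (fun q : Fin s × Fin r => B * D q.1), ‖M.cc a (sL σ L) F x y‖ := by
  obtain ⟨B, hB, hblk⟩ := hBLK s r k t a L l c hk ha hl hNP
  obtain ⟨e, K1, he, hK1⟩ := hblk R δ hδ ε hε
  obtain ⟨e', K2, he', hK2⟩ := orth_gen (κ := Fin s × Fin r) B hB e he
  refine ⟨B, e', K1 + K2, hB, he', fun D x hD hDx F hF hbig => ?_⟩
  have h1 : e * ∏ g, (D g : ℝ) ^ r < ∑ y ∈ Fintype.piFinset (fun g => SB r (B * D g)),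
      ‖M.cc a L F x (fun q => y q.1 q.2)‖ := by
    by_contra hcon
    push Not at hcon
    exact absurd (hK1 D x (fun g => by have := hD g; omega) hDx F hF hcon) (not_le.2 hbig)
  rw [curry_sum (fun g => B * D g) (fun y => ‖M.cc a L F x y‖)] at h1
  have h2 : ∏ g, (D g : ℝ) ^ r = ∏ q : Fin s × Fin r, (D q.1 : ℝ) := by
    rw [Fintype.prod_prod_type]
    refine Finset.prod_congr rfl fun g _ => ?_
    simp
  rw [h2] at h1
  obtain ⟨σ, hσ⟩ := hK2 (fun q => D q.1) (fun q => by have := hD q.1; omega)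
    (fun y => ‖M.cc a L F x y‖) (fun _ => norm_nonneg _)
    (fun y => Pool.Agent.N675.Q.cc_le a L F hF x y) h1
  refine ⟨σ, hσ.trans_le (le_of_eq ?_)⟩
  refine Finset.sum_congr rfl fun y _ => ?_
  rw [Pool.Agent.N40.QP.cc_sL]

end Pool.Agent.N788.QP
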