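import Mathlib
import Pool.Agent.N788.QP.Gen

/-! Uniform inverse theorems with weights. -/

set_option autoImplicit false
set_option maxHeartbeats 4000000

namespace Pool.Agent.N788.QP

open Finset Topology Pool.Agent.N675 Pool.Agent.N675.M Pool.Agent.N781.A Pool.Agent.N781.FV
open Pool.Agent.N788.Sys
open Pool.Agent.N675.Q (om aff SB PB NP S_BLK curry_sum)
open Pool.Agent.N40.QP (sL sv SBx)

/-- uniformity over finitely many cases -/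
lemma fin_uni {I : Type} [Fintype I] (P : I → ℕ → ℝ → ℝ → ℝ → ℕ → ℕ → Prop)
    (mono : ∀ σ Q Q' η U U' M M' T K K', Q ≤ Q' → U ≤ U' → M ≤ M' → K ≤ K' →
      P σ Q η U M T K → P σ Q' η U' M' T K')
    (h : ∀ σ, ∃ Q : ℕ, ∀ η : ℝ, 0 < η → ∃ U M : ℝ, ∀ T : ℕ, ∃ K : ℕ, P σ Q η U M T K) :
    ∃ Q : ℕ, ∀ η : ℝ, 0 < η → ∃ U M : ℝ, ∀ T : ℕ, ∃ K : ℕ, ∀ σ, P σ Q η U M T K := by
  choose Q hQ using h
  refine ⟨∑ σ, Q σ, fun η hη => ?_⟩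
  choose U M hUM using fun σ => hQ σ η hη
  refine ⟨∑ σ, |U σ|, ∑ σ, |M σ|, fun T => ?_⟩
  choose K hK using fun σ => hUM σ T
  refine ⟨∑ σ, K σ, fun σ => mono σ _ _ _ _ _ _ _ _ _ _ ?_ ?_ ?_ ?_ (hK σ)⟩
  · exact Finset.single_le_sum (f := Q) (fun _ _ => Nat.zero_le _) (Finset.mem_univ σ)
  · exact (le_abs_self _).trans
      (Finset.single_le_sum (f := fun σ => |U σ|) (fun _ _ => abs_nonneg _) (Finset.mem_univ σ))
  · exact (le_abs_self _).trans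
      (Finset.single_le_sum (f := fun σ => |M σ|) (fun _ _ => abs_nonneg _) (Finset.mem_univ σ))
  · exact Finset.single_le_sum (f := K) (fun _ _ => Nat.zero_le _) (Finset.mem_univ σ)

section

variable {κ : Type} [Fintype κ] [DecidableEq κ] {k : ℕ}

/-- the conclusion of the inverse theorems -/
def Con (G : ℕ → ℂ) (S : Set ℂ) (Q : ℕ) (η U M : ℝ) (T : ℕ) : Prop :=
  ∃ (q : ℕ) (χ : DirichletCharacter ℂ q) (v : ℝ), 1 ≤ q ∧ q ≤ Q ∧ |v| ≤ U ∧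
    mass G χ v η T ≤ M ∧ ((∀ p : ℕ, p.Prime → G p ∈ S) → v = 0 ∧ dist2 G χ T ≤ M)

omit [Fintype κ] [DecidableEq κ] in
lemma Con_mono (G : ℕ → ℂ) (S : Set ℂ) {Q Q' : ℕ} (η : ℝ) {U U' M M' : ℝ} (T : ℕ) (hQ : Q ≤ Q')
    (hU : U ≤ U') (hM : M ≤ M') (h : Con G S Q η U M T) : Con G S Q' η U' M' T := by
  obtain ⟨q, χ, v, h1, h2, h3, h4, h5⟩ := h
  exact ⟨q, χ, v, h1, h2.trans hQ, h3.trans hU, h4.trans hM,
    fun h => ⟨(h5 h).1, (h5 h).2.trans hM⟩⟩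

/-- the situation for clusters -/
def WCk (a : Fin k → ℤ) (L : Fin k → κ → ℤ) (lg : κ → Bool) (i₀ : Fin k) (R : ℕ) (ε : ℝ)
    (_T K : ℕ) (G : ℕ → ℂ) : Prop :=
  ∃ (B : κ → ℕ) (x : ℕ) (f : Fin k → ℕ → ℂ), (∀ j, K ≤ B j) ∧ K ≤ x ∧ (∀ j, B j ≤ R * x) ∧
    (∀ j, lg j = true → x ≤ R * B j) ∧ (∀ i, IsMult (f i)) ∧
    ε ≤ ER B (fun y => ‖Pool.Agent.N675.M.cc a L (fun i m => f i m.natAbs) x y‖ ^ 2) ∧
    G = fun p => ∏ i ∈ cls a L lg i₀, f i p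

/-- inverse theorem for clusters -/
theorem clusters_k (a : Fin k → ℤ) (L : Fin k → κ → ℤ) (ha : ∀ i, a i ≠ 0)
    (lg : κ → Bool) (i₀ : Fin k) (S : Set ℂ) (hS : S.Finite) (R : ℕ) (ε : ℝ) (hε : 0 < ε) :
    ∃ Q : ℕ, ∀ η : ℝ, 0 < η → ∃ U M : ℝ, ∀ T : ℕ, ∃ K : ℕ, ∀ (B : κ → ℕ) (x : ℕ),
      (∀ j, K ≤ B j) → K ≤ x → (∀ j, B j ≤ R * x) → (∀ j, lg j = true → x ≤ R * B j) →
      ∀ f : Fin k → ℕ → ℂ, (∀ i, IsMult (f i)) →
      ε * ∏ j, (B j : ℝ) < ∑ y ∈ Box B, ‖Pool.Agent.N675.M.cc a L (fun i m => f i m.natAbs) x y‖ →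
      Con (fun p => ∏ i ∈ cls a L lg i₀, f i p) S Q η U M T := by
  obtain ⟨Q, hQ⟩ := inv_all (WCk a L lg i₀ R (ε ^ 2)) (by
      rintro T K T' K' G _ hK ⟨B, x, f, h1, h2, h3⟩
      exact ⟨B, x, f, fun j => hK.trans (h1 j), hK.trans h2, h3⟩) (by
      rintro T K G ⟨B, x, f, _, _, _, _, hf, _, rfl⟩ p
      rw [norm_prod]
      exact Finset.prod_le_one (fun _ _ => norm_nonneg _) fun i _ => (hf i).1 p) (by
      obtain ⟨Q, hQ⟩ := cluster_all (cls a L lg i₀)ᶜ.card κ (Fin k) a L lg i₀ ha le_rfl 0 R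
        (ε ^ 2) (by positivity)
      refine ⟨Q, fun η hη => ?_⟩
      obtain ⟨U, M, hUM⟩ := hQ η hη
      refine ⟨U, M, fun T' => ?_⟩
      obtain ⟨T, K, hTK⟩ := hUM T'
      refine ⟨T, K, ?_⟩
      rintro G ⟨B, x, f, h1, h2, h3, h4, hf, hbig, rfl⟩
      obtain ⟨q, hq1, hqQ, χ, v, hv, hfar⟩ := hTK B x h1 h2 h3 h4 (fun i m => f i m.natAbs) f
        (multAt f hf 0 T) hbig
      exact ⟨q, hq1, hqQ, χ, v, hv, hfar⟩) S hS
  refine ⟨Q, fun η hη => ?_⟩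
  obtain ⟨U, M, hUM⟩ := hQ η hη
  refine ⟨U, M, fun T' => ?_⟩
  obtain ⟨T, K, hTK⟩ := hUM T'
  refine ⟨K + 1, fun B x hB hx hBx hlg f hf hbig => ?_⟩
  have h1 := sq_of_sum' B (fun j => by have := hB j; omega) _ ε hε hbig
  exact hTK _ ⟨B, x, f, fun j => by have := hB j; omega, by omega, hBx, hlg, hf, h1, rfl⟩

/-- the situation for twists -/
def WTk (a : Fin k → ℤ) (L : Fin k → κ → ℤ) (R : ℕ) (ε : ℝ) (_T K : ℕ) (G : ℕ → ℂ) : Prop :=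
  ∃ (B : κ → ℕ) (x : ℕ) (f : Fin k → ℕ → ℂ) (γ : ℝ), (∀ j, K ≤ B j) ∧ K ≤ x ∧
    (∀ j, B j ≤ R * x) ∧ (∀ i, IsMult (f i)) ∧
    ε ≤ ER B (fun y => ‖ccg a L (fun i m => f i m.natAbs) γ x y‖ ^ 2) ∧
    G = fun p => ∏ i, f i p

/-- inverse theorem for twists -/
theorem twists_k (a : Fin k → ℤ) (L : Fin k → κ → ℤ) (ha : ∀ i, a i ≠ 0)
    (S : Set ℂ) (hS : S.Finite) (R : ℕ) (ε : ℝ) (hε : 0 < ε) :
    ∃ Q : ℕ, ∀ η : ℝ, 0 < η → ∃ U M : ℝ, ∀ T : ℕ, ∃ K : ℕ, ∀ (B : κ → ℕ) (x : ℕ),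
      (∀ j, K ≤ B j) → K ≤ x → (∀ j, B j ≤ R * x) →
      ∀ f : Fin k → ℕ → ℂ, (∀ i, IsMult (f i)) → ∀ γ : ℝ,
      ε * ∏ j, (B j : ℝ) < ∑ y ∈ Box B, ‖ccg a L (fun i m => f i m.natAbs) γ x y‖ →
      (∃ q : ℕ, 1 ≤ q ∧ q ≤ Q ∧ |(q : ℝ) * γ - round ((q : ℝ) * γ)| ≤ (Q : ℝ) / x) ∧
      Con (fun p => ∏ i, f i p) S Q η U M T := by
  obtain ⟨Q, hQ⟩ := inv_all (WTk a L R (ε ^ 2)) (by
      rintro T K T' K' G _ hK ⟨B, x, f, γ, h1, h2, h3⟩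
      exact ⟨B, x, f, γ, fun j => hK.trans (h1 j), hK.trans h2, h3⟩) (by
      rintro T K G ⟨B, x, f, γ, _, _, _, hf, _, rfl⟩ p
      rw [norm_prod]
      exact Finset.prod_le_one (fun _ _ => norm_nonneg _) fun i _ => (hf i).1 p) (by
      obtain ⟨Q, hQ⟩ := tw_all κ (Fin k) a L ha 0 R (ε ^ 2) (by positivity)
      refine ⟨Q, fun η hη => ?_⟩
      obtain ⟨U, M, hUM⟩ := hQ η hη
      refine ⟨U, M, fun T' => ?_⟩
      obtain ⟨T, K, hTK⟩ := hUM T'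
      refine ⟨T, K, ?_⟩
      rintro G ⟨B, x, f, γ, h1, h2, h3, hf, hbig, rfl⟩
      obtain ⟨q, hq1, hqQ, χ, v, hv, hfar⟩ := hTK B x h1 h2 h3 (fun i m => f i m.natAbs) f
        (multAt f hf 0 T) γ hbig
      exact ⟨q, hq1, hqQ, χ, v, hv, hfar⟩) S hS
  obtain ⟨T1, Q1, K1, hK1⟩ := Pool.Agent.N279.M.tw1 κ (Fin k) a L ha 0 (ε ^ 2)
    (by positivity)
  refine ⟨Q + Q1, fun η hη => ?_⟩
  obtain ⟨U, M, hUM⟩ := hQ η hη
  refine ⟨U, M, fun T' => ?_⟩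
  obtain ⟨T, K, hTK⟩ := hUM T'
  refine ⟨K + K1 + 1, fun B x hB hx hBx f hf γ hbig => ?_⟩
  have h1 := sq_of_sum' B (fun j => by have := hB j; omega) _ ε hε hbig
  constructor
  · obtain ⟨q, hq1, hqQ, hq⟩ := hK1 B x (fun j => by have := hB j; omega) (by omega)
      (fun i m => f i m.natAbs) f (multAt f hf 0 T1) γ h1
    refine ⟨q, hq1, by omega, hq.trans ?_⟩
    apply div_le_div_of_nonneg_right _ (Nat.cast_nonneg _)
    push_cast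
    have : (0 : ℝ) ≤ Q := Nat.cast_nonneg _
    linarith
  · exact Con_mono _ S η T' (by omega) le_rfl le_rfl
      (hTK _ ⟨B, x, f, γ, fun j => by have := hB j; omega, by omega, hBx, hf, h1, rfl⟩)

end

section

variable {s r k : ℕ} (t : Fin s → ℕ) (a : Fin k → ℤ)
    (L : Fin k → Fin s × Fin r → ℤ) (l : ∀ g, Fin (t g) → Fin r → ℤ) (c : ∀ g, Fin (t g) → ℤ)

/-- the weighted sum of the absolute values of a function -/
noncomputable def ws (δ : ℝ) (D : Fin s → ℕ) (G : (Fin s → Fin r → ℤ) → ℂ) : ℝ :=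
  ∑ y ∈ Fintype.piFinset (fun g => PB r (D g)),
    (∏ g, ∏ j, om δ (D g) (aff (l g j) (c g j) (y g))) * ‖G y‖

/-- clusters, with weights -/
theorem clusters_w (hBLK : S_BLK) (ha : ∀ i, a i ≠ 0) (hl : ∀ g j, l g j ≠ 0)
    (hNP : ∀ g, NP (l g) (c g)) (lg : Fin s → Bool) (i₀ : Fin k) (S : Set ℂ) (hS : S.Finite)
    (R : ℕ) (δ ε : ℝ) (hδ : 0 < δ) (hε : 0 < ε) :
    ∃ Q : ℕ, ∀ η : ℝ, 0 < η → ∃ U M : ℝ, ∀ T : ℕ, ∃ K : ℕ, ∀ (D : Fin s → ℕ) (x : ℕ),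
      (∀ g, K ≤ D g) → K ≤ x → (∀ g, D g ≤ R * x) → (∀ g, lg g = true → x ≤ R * D g) →
      ∀ f : Fin k → ℕ → ℂ, (∀ i, IsMult (f i)) →
      ε * ∏ g, (D g : ℝ) ^ r < ws t l c δ D
        (fun y => Pool.Agent.N675.M.cc a L (fun i m => f i m.natAbs) x (fun q => y q.1 q.2)) →
      Con (fun p => ∏ i ∈ cls a L (fun q => lg q.1) i₀, f i p) S Q η U M T := by
  obtain ⟨B, e, K0, hB, he, h0⟩ := of_weighted hBLK t a L l c (Fin.pos i₀) ha hl hNP R δ ε hδ hε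
  obtain ⟨Q, hQ⟩ := fin_uni (I := Fin s × Fin r → Bool) (fun σ Q η U M T K =>
      ∀ (B' : Fin s × Fin r → ℕ) (x : ℕ),
      (∀ j, K ≤ B' j) → K ≤ x → (∀ j, B' j ≤ R * B * x) →
      (∀ j, lg j.1 = true → x ≤ R * B * B' j) →
      ∀ f : Fin k → ℕ → ℂ, (∀ i, IsMult (f i)) →
      e * ∏ j, (B' j : ℝ) < ∑ y ∈ Box B', ‖Pool.Agent.N675.M.cc a (sL σ L) (fun i m => f i m.natAbs) x y‖ →
      Con (fun p => ∏ i ∈ cls a L (fun q => lg q.1) i₀, f i p) S Q η U M T) (by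
      intro σ Q Q' η U U' M M' T K K' hQ hU hM hK h B' x h1 h2 h3 h4 f hf h5
      exact Con_mono _ S η T hQ hU hM
        (h B' x (fun j => hK.trans (h1 j)) (hK.trans h2) h3 h4 f hf h5)) (by
      intro σ
      have h := clusters_k a (sL σ L) ha (fun q => lg q.1) i₀ S hS (R * B) e he
      rw [Pool.Agent.N40.QP.cls_sL] at h
      exact h)
  refine ⟨Q, fun η hη => ?_⟩
  obtain ⟨U, M, hUM⟩ := hQ η hη
  refine ⟨U, M, fun T => ?_⟩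
  obtain ⟨K, hK⟩ := hUM T
  refine ⟨K0 + K, fun D x hD hx hDx hlg f hf hbig => ?_⟩
  obtain ⟨σ, hσ⟩ := h0 D x (fun g => by have := hD g; omega) hDx (fun i m => f i m.natAbs)
    (fun i m => (hf i).1 _) hbig
  refine hK σ (fun q => B * D q.1) x (fun q => ?_) (by omega) (fun q => ?_) (fun q hq => ?_)
    f hf hσ
  · have h1 := hD q.1
    have h2 : D q.1 ≤ B * D q.1 := Nat.le_mul_of_pos_left _ hB
    omega
  · calc B * D q.1 ≤ B * (R * x) := Nat.mul_le_mul_left _ (hDx _)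
      _ = R * B * x := by ring
  · calc x ≤ R * D q.1 := hlg _ hq
      _ ≤ R * D q.1 * (B * B) := Nat.le_mul_of_pos_right _ (Nat.mul_pos hB hB)
      _ = R * B * (B * D q.1) := by ring

/-- the twist as an additional form -/
lemma cc_cons {κ : Type} [Fintype κ] (a : Fin k → ℤ) (L : Fin k → κ → ℤ) (F : Fin k → ℤ → ℂ)
    (γ : ℝ) (x : ℕ) (y : κ → ℤ) :
    Pool.Agent.N675.M.cc (Fin.cons 1 a) (Fin.cons (fun _ => 0) L)
      (Fin.cons (fun m : ℤ => eR (γ * m)) F : Fin (k + 1) → ℤ → ℂ) x y = ccg a L F γ x y := by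
  unfold Pool.Agent.N675.M.cc ccg
  congr 1
  funext n
  rw [Fin.prod_univ_succ]
  simp only [Fin.cons_zero, Fin.cons_succ]
  congr 1
  unfold LL
  simp

lemma sL_cons {κ : Type} (σ : κ → Bool) (L : Fin k → κ → ℤ) :
    sL σ (Fin.cons (fun _ => 0) L : Fin (k + 1) → κ → ℤ) = Fin.cons (fun _ => 0) (sL σ L) := by
  funext i j
  refine Fin.cases ?_ (fun i => ?_) i
  · simp [sL]
  · simp [sL]

/-- twists, with weights -/
theorem twists_w (hBLK : S_BLK) (ha : ∀ i, a i ≠ 0) (hl : ∀ g j, l g j ≠ 0)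
    (hNP : ∀ g, NP (l g) (c g)) (S : Set ℂ) (hS : S.Finite)
    (R : ℕ) (δ ε : ℝ) (hδ : 0 < δ) (hε : 0 < ε) :
    ∃ Q : ℕ, ∀ η : ℝ, 0 < η → ∃ U M : ℝ, ∀ T : ℕ, ∃ K : ℕ, ∀ (D : Fin s → ℕ) (x : ℕ),
      (∀ g, K ≤ D g) → K ≤ x → (∀ g, D g ≤ R * x) →
      ∀ f : Fin k → ℕ → ℂ, (∀ i, IsMult (f i)) → ∀ γ : ℝ,
      ε * ∏ g, (D g : ℝ) ^ r < ws t l c δ D
        (fun y => ccg a L (fun i m => f i m.natAbs) γ x (fun q => y q.1 q.2)) →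
      (∃ q : ℕ, 1 ≤ q ∧ q ≤ Q ∧ |(q : ℝ) * γ - round ((q : ℝ) * γ)| ≤ (Q : ℝ) / x) ∧
      Con (fun p => ∏ i, f i p) S Q η U M T := by
  obtain ⟨B, e, K0, hB, he, h0⟩ := of_weighted hBLK t (Fin.cons 1 a)
    (Fin.cons (fun _ => 0) L : Fin (k + 1) → Fin s × Fin r → ℤ) l c (Nat.succ_pos k) (by
      intro i
      refine Fin.cases ?_ (fun i => ?_) i
      · simp
      · simpa using ha i) hl hNP R δ ε hδ hε
  obtain ⟨Q, hQ⟩ := fin_uni (I := Fin s × Fin r → Bool) (fun σ Q η U M T K =>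
      ∀ (B' : Fin s × Fin r → ℕ) (x : ℕ),
      (∀ j, K ≤ B' j) → K ≤ x → (∀ j, B' j ≤ R * B * x) →
      ∀ f : Fin k → ℕ → ℂ, (∀ i, IsMult (f i)) → ∀ γ : ℝ,
      e * ∏ j, (B' j : ℝ) < ∑ y ∈ Box B', ‖ccg a (sL σ L) (fun i m => f i m.natAbs) γ x y‖ →
      (∃ q : ℕ, 1 ≤ q ∧ q ≤ Q ∧ |(q : ℝ) * γ - round ((q : ℝ) * γ)| ≤ (Q : ℝ) / x) ∧
      Con (fun p => ∏ i, f i p) S Q η U M T) (by
      intro σ Q Q' η U U' M M' T K K' hQ hU hM hK h B' x h1 h2 h3 f hf γ h5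
      obtain ⟨⟨q, hq1, hq2, hq3⟩, h6⟩ := h B' x (fun j => hK.trans (h1 j)) (hK.trans h2) h3 f hf γ h5
      refine ⟨⟨q, hq1, hq2.trans hQ, hq3.trans ?_⟩, Con_mono _ S η T hQ hU hM h6⟩
      exact div_le_div_of_nonneg_right (by exact_mod_cast hQ) (Nat.cast_nonneg _))
      (fun σ => twists_k a (sL σ L) ha S hS (R * B) e he)
  refine ⟨Q, fun η hη => ?_⟩
  obtain ⟨U, M, hUM⟩ := hQ η hη
  refine ⟨U, M, fun T => ?_⟩
  obtain ⟨K, hK⟩ := hUM T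
  refine ⟨K0 + K, fun D x hD hx hDx f hf γ hbig => ?_⟩
  obtain ⟨σ, hσ⟩ := h0 D x (fun g => by have := hD g; omega) hDx
    (Fin.cons (fun m : ℤ => eR (γ * m)) (fun i m => f i m.natAbs) : Fin (k + 1) → ℤ → ℂ) (by
      intro i m
      refine Fin.cases ?_ (fun i => ?_) i
      · simp only [Fin.cons_zero]
        exact (norm_eR _).le
      · simpa using (hf i).1 _) (by
      unfold ws at hbig
      refine hbig.trans_le (le_of_eq ?_)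
      refine Finset.sum_congr rfl fun y _ => ?_
      rw [cc_cons])
  rw [sL_cons] at hσ
  simp only [cc_cons] at hσ
  refine hK σ (fun q => B * D q.1) x (fun q => ?_) (by omega) (fun q => ?_) f hf γ hσ
  · have h1 := hD q.1
    have h2 : D q.1 ≤ B * D q.1 := Nat.le_mul_of_pos_left _ hB
    omega
  · calc B * D q.1 ≤ B * (R * x) := Nat.mul_le_mul_left _ (hDx _)
      _ = R * B * x := by ring

/-- one real factor, with weights -/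
theorem one_factor_w (hBLK : S_BLK) (ha : ∀ i, a i ≠ 0) (hl : ∀ g j, l g j ≠ 0)
    (hNP : ∀ g, NP (l g) (c g)) (lg : Fin s → Bool) (i₀ : Fin k)
    (hd : Cdir a L (fun q => lg q.1) i₀ i₀) (h : ℕ → ℂ) (hm : IsMult h)
    (hf : RealNP h) (R : ℕ) (δ ε : ℝ) (hδ : 0 < δ) (hε : 0 < ε) :
    ∃ K : ℕ, ∀ (D : Fin s → ℕ) (x : ℕ),
      (∀ g, K ≤ D g) → K ≤ x → (∀ g, D g ≤ R * x) → (∀ g, lg g = true → x ≤ R * D g) →
      ∀ f : Fin k → ℕ → ℂ, (∀ i, IsMult (f i)) → f i₀ = h →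
      ws t l c δ D (fun y => Pool.Agent.N675.M.cc a L (fun i m => f i m.natAbs) x (fun q => y q.1 q.2))
        ≤ ε * ∏ g, (D g : ℝ) ^ r := by
  obtain ⟨B, e, K0, hB, he, h0⟩ := of_weighted hBLK t a L l c (Fin.pos i₀) ha hl hNP R δ ε hδ hε
  have hdσ : ∀ σ : Fin s × Fin r → Bool, Cdir a (sL σ L) (fun q => lg q.1) i₀ i₀ := by
    intro σ
    obtain ⟨h1, w, v, h2, h3⟩ := hd
    refine ⟨by rw [Pool.Agent.N40.QP.cls_sL]; exact h1, w, sv σ v, ?_, ?_⟩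
    · rw [Pool.Agent.N40.QP.LL_sL']
      exact h2
    · intro i hi hne
      rw [Pool.Agent.N40.QP.cls_sL] at hi
      rw [Pool.Agent.N40.QP.LL_sL']
      exact h3 i hi hne
  have hσ0 := fun σ : Fin s × Fin r → Bool => clh struct_all (fun m => h m.natAbs)
    (mrp_real h hm hf) a (sL σ L) (fun q => lg q.1) i₀ i₀ ha (hdσ σ) 0 (R * B) (e ^ 2)
    (by positivity)
  choose T K hK using hσ0
  refine ⟨K0 + (∑ σ, K σ) + 1, fun D x hD hx hDx hlg f hfm hfi => ?_⟩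
  by_contra hcon
  push Not at hcon
  obtain ⟨σ, hσ⟩ := h0 D x (fun g => by have := hD g; omega) hDx (fun i m => f i m.natAbs)
    (fun i m => (hfm i).1 _) hcon
  have hKσ : K σ ≤ ∑ σ, K σ :=
    Finset.single_le_sum (f := K) (fun _ _ => Nat.zero_le _) (Finset.mem_univ σ)
  have hBD : ∀ q : Fin s × Fin r, D q.1 ≤ B * D q.1 := fun q => Nat.le_mul_of_pos_left _ hB
  have h1 := sq_of_sum' (fun q : Fin s × Fin r => B * D q.1)
    (fun q => by have := hD q.1; have := hBD q; omega) _ e he hσ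
  have h2 := hK σ (fun q => B * D q.1) x (fun q => by have := hD q.1; have := hBD q; omega)
    (by omega) (fun q => by
      calc B * D q.1 ≤ B * (R * x) := Nat.mul_le_mul_left _ (hDx _)
        _ = R * B * x := by ring) (fun q hq => by
      calc x ≤ R * D q.1 := hlg _ hq
        _ ≤ R * D q.1 * (B * B) := Nat.le_mul_of_pos_right _ (Nat.mul_pos hB hB)
        _ = R * B * (B * D q.1) := by ring) (fun i m => f i m.natAbs) f
    (multAt f hfm 0 (T σ)) (by rw [hfi])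
  linarith

end

end Pool.Agent.N788.QP
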