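import Mathlib
import Pool.Agent.N788.QP.Uni
import Pool.Agent.N675.Q.All

/-! Translation to sums without normalization, parameters in blocks. -/

set_option autoImplicit false

namespace Pool.Agent.N788.QP

open Finset Pool.Agent.N675 Pool.Agent.N781.A Pool.Agent.N788.Sys

/-- the coefficients with one index for the parameters -/
def fl {s r k : ℕ} (L : Fin k → Fin s → Fin r → ℤ) (i : Fin k) (q : Fin s × Fin r) : ℤ :=
  L i q.1 q.2

lemma LL_fl {s r k : ℕ} (L : Fin k → Fin s → Fin r → ℤ) (i : Fin k) (y : Fin s → Fin r → ℤ) :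
    LL (fl L) i (fun q => y q.1 q.2) = ∑ g, ∑ u, L i g u * y g u := by
  unfold LL fl
  rw [Fintype.sum_prod_type]

lemma cc_sum {s r k : ℕ} (a : Fin k → ℤ) (L : Fin k → Fin s → Fin r → ℤ) (F : Fin k → ℤ → ℂ)
    (x : ℕ) (hx : 0 < x) (y : Fin s → Fin r → ℤ) :
    ‖∑ n ∈ Icc (1 : ℤ) x, ∏ i, F i (a i * n + ∑ g, ∑ u, L i g u * y g u)‖
      = x * ‖M.cc a (fl L) F x (fun q => y q.1 q.2)‖ := by
  have hx0 : (0 : ℝ) < x := by exact_mod_cast hx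
  unfold M.cc av
  rw [norm_div, Complex.norm_natCast, mul_div_cancel₀ _ hx0.ne']
  simp only [LL_fl]

lemma ccg_sum {s r k : ℕ} (a : Fin k → ℤ) (L : Fin k → Fin s → Fin r → ℤ) (F : Fin k → ℤ → ℂ)
    (γ : ℝ) (x : ℕ) (hx : 0 < x) (y : Fin s → Fin r → ℤ) :
    ‖∑ n ∈ Icc (1 : ℤ) x, Complex.exp (Complex.I * ((2 * Real.pi * (γ * n) : ℝ) : ℂ)) *
        ∏ i, F i (a i * n + ∑ g, ∑ u, L i g u * y g u)‖
      = x * ‖M.ccg a (fl L) F γ x (fun q => y q.1 q.2)‖ := by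
  have hx0 : (0 : ℝ) < x := by exact_mod_cast hx
  unfold M.ccg av
  rw [norm_div, Complex.norm_natCast, mul_div_cancel₀ _ hx0.ne']
  simp only [LL_fl]
  rfl

lemma ws_sum {s r : ℕ} (t : Fin s → ℕ) (l : ∀ g, Fin (t g) → Fin r → ℤ)
    (c : ∀ g, Fin (t g) → ℤ) (δ : ℝ) (D : Fin s → ℕ) (x : ℕ)
    (G H : (Fin s → Fin r → ℤ) → ℂ) (hGH : ∀ y, ‖G y‖ = x * ‖H y‖) :
    ∑ y ∈ Fintype.piFinset (fun g => Pool.Agent.N675.Q.PB r (D g)),
      (∏ g, ∏ j, Pool.Agent.N675.Q.om δ (D g) (Pool.Agent.N675.Q.aff (l g j) (c g j) (y g)))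
        * ‖G y‖ = x * ws t l c δ D H := by
  unfold ws
  rw [Finset.mul_sum]
  refine Finset.sum_congr rfl fun y _ => ?_
  rw [hGH]
  ring

end Pool.Agent.N788.QP
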