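import Mathlib
import Pool.Agent.N788.QP.Fin
import Pool.Agent.N788.Sys.Clu
import Pool.Agent.N788.Even.Three

/-! The Möbius function with weights. -/

set_option autoImplicit false
set_option maxHeartbeats 4000000

namespace Pool.Agent.N788.QP

open Finset Topology Pool.Agent.N675 Pool.Agent.N675.M Pool.Agent.N781.A Pool.Agent.N781.FV
open Pool.Agent.N788.Sys
open Pool.Agent.N675.Q (om aff SB PB NP S_BLK curry_sum)
open Pool.Agent.N40.QP (sL sv SBx)
open Pool.Agent.N788.MuDil2 (mu)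

section

variable {κ ι : Type} [Fintype κ] [DecidableEq κ] [Fintype ι] [DecidableEq ι]

/-- The class of `i₀` in the set `E`, or a direction for a form of this class. -/
def GoodE (a : ι → ℤ) (L : ι → κ → ℤ) (lg : κ → Bool) (E : Finset ι) : Prop :=
  ∃ i₀ ∈ E, Odd ((cls a L lg i₀) ∩ E).card ∨
    ∃ i₁ ∈ (cls a L lg i₀) ∩ E, ∃ (w : ℤ) (v : κ → ℤ), a i₁ * w + LL L i₁ v ≠ 0 ∧
      ∀ i ∈ (cls a L lg i₀) ∩ E, i ≠ i₁ → a i * w + LL L i v = 0

omit [DecidableEq κ] in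
lemma goodE_sL (σ : κ → Bool) (a : ι → ℤ) (L : ι → κ → ℤ) (lg : κ → Bool) (E : Finset ι)
    (h : GoodE a L lg E) : GoodE a (sL σ L) lg E := by
  obtain ⟨i₀, hi₀, h1 | ⟨i₁, h2, w, v, h3, h4⟩⟩ := h
  · exact ⟨i₀, hi₀, Or.inl (by rw [Pool.Agent.N40.QP.cls_sL]; exact h1)⟩
  · refine ⟨i₀, hi₀, Or.inr ⟨i₁, by rw [Pool.Agent.N40.QP.cls_sL]; exact h2, w, sv σ v, ?_, ?_⟩⟩
    · rw [Pool.Agent.N40.QP.LL_sL']
      exact h3
    · intro i hi hne
      rw [Pool.Agent.N40.QP.cls_sL] at hi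
      rw [Pool.Agent.N40.QP.LL_sL']
      exact h4 i hi hne

lemma sum_parity' (S : Finset ι) (e : ι → ℕ) (he : ∀ i, e i = 1 ∨ e i = 2)
    (h : Odd (S.filter (fun i => e i = 1)).card) : Odd (∑ i ∈ S, e i) := by
  have h1 : ∑ i ∈ S, e i = (S.filter (fun i => e i = 1)).card
      + 2 * (S.filter (fun i => e i = 2)).card := by
    rw [Finset.card_filter, Finset.card_filter, Finset.mul_sum, ← Finset.sum_add_distrib]
    apply Finset.sum_congr rfl
    intro i _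
    rcases he i with h | h <;> rw [h] <;> simp
  rw [h1]
  exact h.add_even (even_two_mul _)

/-- restriction to the forms with positive exponent -/
lemma cc_restrict (a : ι → ℤ) (L : ι → κ → ℤ) (e : ι → ℕ) (x : ℕ) (y : κ → ℤ) :
    Pool.Agent.N675.M.cc a L (Fe e) x y = Pool.Agent.N675.M.cc (fun i : {i // e i ≠ 0} => a i)
      (fun i : {i // e i ≠ 0} => L i) (Fe (fun i : {i // e i ≠ 0} => e i)) x y := by
  unfold Pool.Agent.N675.M.cc
  congr 1
  funext n
  have h1 : ∏ i, Fe e i (a i * n + LL L i y)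
      = ∏ i ∈ Finset.univ.filter (fun i => e i ≠ 0), Fe e i (a i * n + LL L i y) := by
    rw [Finset.prod_filter]
    refine Finset.prod_congr rfl fun i _ => ?_
    split_ifs with h
    · rfl
    · unfold Fe
      push Not at h
      rw [h, pow_zero]
  rw [h1, Finset.prod_subtype (p := fun i => e i ≠ 0) _ (by simp)]
  rfl

/-- good systems, exponents zero allowed -/
theorem mu_good (a : ι → ℤ) (L : ι → κ → ℤ) (lg : κ → Bool) (ha : ∀ i, a i ≠ 0)
    (e : ι → ℕ) (he : ∀ i, e i ≤ 2) (hg : GoodE a L lg (Finset.univ.filter fun i => e i = 1))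
    (R : ℕ) (ε : ℝ) (hε : 0 < ε) : ∃ K : ℕ, ∀ (B : κ → ℕ) (x : ℕ),
      (∀ j, K ≤ B j) → K ≤ x → (∀ j, B j ≤ R * x) → (∀ j, lg j = true → x ≤ R * B j) →
      ER B (fun y => ‖Pool.Agent.N675.M.cc a L (Fe e) x y‖) ≤ ε := by
  classical
  have hres : ∀ (B : κ → ℕ) (x : ℕ), ER B (fun y => ‖Pool.Agent.N675.M.cc a L (Fe e) x y‖)
      = ER B (fun y => ‖Pool.Agent.N675.M.cc (fun i : {i // e i ≠ 0} => a i)
      (fun i : {i // e i ≠ 0} => L i) (Fe (fun i : {i // e i ≠ 0} => e i)) x y‖) := by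
    intro B x
    congr 1
    funext y
    rw [cc_restrict]
  suffices hsuff : ∃ K : ℕ, ∀ (B : κ → ℕ) (x : ℕ),
      (∀ j, K ≤ B j) → K ≤ x → (∀ j, B j ≤ R * x) → (∀ j, lg j = true → x ≤ R * B j) →
      ER B (fun y => ‖Pool.Agent.N675.M.cc (fun i : {i // e i ≠ 0} => a i)
      (fun i : {i // e i ≠ 0} => L i) (Fe (fun i : {i // e i ≠ 0} => e i)) x y‖) ≤ ε by
    obtain ⟨K, hK⟩ := hsuff
    exact ⟨K, fun B x h1 h2 h3 h4 => by rw [hres]; exact hK B x h1 h2 h3 h4⟩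
  set a' : {i // e i ≠ 0} → ℤ := fun i => a i with ha'
  set L' : {i // e i ≠ 0} → κ → ℤ := fun i => L i with hL'
  set e' : {i // e i ≠ 0} → ℕ := fun i => e i with he'
  have he2 : ∀ i : {i // e i ≠ 0}, e' i = 1 ∨ e' i = 2 := by
    rintro ⟨i, hi⟩
    have := he i
    simp only [he']
    omega
  have hcls : ∀ i₀ i : {i // e i ≠ 0}, i ∈ cls a' L' lg i₀ ↔ (i : ι) ∈ cls a L lg i₀ := by
    intro i₀ i
    rw [mem_cls, mem_cls]
  obtain ⟨i₀, hi₀, hodd | ⟨i₁, hi₁, w, v, hV1, hV0⟩⟩ := hg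
  · rw [Finset.mem_filter] at hi₀
    refine clu_odd a' L' lg ⟨i₀, by rw [hi₀.2]; norm_num⟩ e' ?_ (fun i => ha i) R ε hε
    refine sum_parity' _ e' he2 ?_
    have h1 : ((cls a' L' lg ⟨i₀, by rw [hi₀.2]; norm_num⟩).filter (fun i => e' i = 1)).map
        (Function.Embedding.subtype _) = cls a L lg i₀ ∩ Finset.univ.filter fun i => e i = 1 := by
      ext i
      rw [Finset.mem_map, Finset.mem_inter, Finset.mem_filter]
      constructor
      · rintro ⟨j, hj, rfl⟩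
        rw [Finset.mem_filter, hcls] at hj
        exact ⟨hj.1, Finset.mem_univ _, hj.2⟩
      · rintro ⟨h1, -, h2⟩
        refine ⟨⟨i, by rw [h2]; norm_num⟩, ?_, rfl⟩
        rw [Finset.mem_filter, hcls]
        exact ⟨h1, h2⟩
    rw [← Finset.card_map (Function.Embedding.subtype _), h1]
    exact hodd
  · rw [Finset.mem_filter] at hi₀
    rw [Finset.mem_inter, Finset.mem_filter] at hi₁
    refine clu_dir a' L' lg ⟨i₀, by rw [hi₀.2]; norm_num⟩ ⟨i₁, by rw [hi₁.2.2]; norm_num⟩ e' he2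
      hi₁.2.2 ((hcls _ _).2 hi₁.1) w v hV1 (fun i hi hne hei => ?_) (fun i => ha i) R ε hε
    refine hV0 i ?_ (fun h => hne (Subtype.ext h))
    rw [Finset.mem_inter, Finset.mem_filter]
    exact ⟨(hcls _ _).1 hi, Finset.mem_univ _, hei⟩

end

section

variable {s r k : ℕ} (t : Fin s → ℕ) (a : Fin k → ℤ)
    (L : Fin k → Fin s × Fin r → ℤ) (l : ∀ g, Fin (t g) → Fin r → ℤ) (c : ∀ g, Fin (t g) → ℤ)

/-- Möbius values with weights -/
theorem mu_w (hBLK : S_BLK) (ha : ∀ i, a i ≠ 0) (hl : ∀ g j, l g j ≠ 0)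
    (hNP : ∀ g, NP (l g) (c g)) (lg : Fin s → Bool) (e : Fin k → ℕ) (he : ∀ i, e i ≤ 2)
    (hg : GoodE a L (fun q => lg q.1) (Finset.univ.filter fun i => e i = 1))
    (R : ℕ) (δ ε : ℝ) (hδ : 0 < δ) (hε : 0 < ε) :
    ∃ K : ℕ, ∀ (D : Fin s → ℕ) (x : ℕ),
      (∀ g, K ≤ D g) → K ≤ x → (∀ g, D g ≤ R * x) → (∀ g, lg g = true → x ≤ R * D g) →
      ws t l c δ D (fun y => Pool.Agent.N675.M.cc a L (Fe e) x (fun q => y q.1 q.2))
        ≤ ε * ∏ g, (D g : ℝ) ^ r := by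
  have hk : 0 < k := by
    obtain ⟨i₀, -⟩ := hg
    exact Fin.pos i₀
  obtain ⟨B, e', K0, hB, he', h0⟩ := of_weighted hBLK t a L l c hk ha hl hNP R δ ε hδ hε
  choose K hK using fun σ : Fin s × Fin r → Bool =>
    mu_good a (sL σ L) (fun q => lg q.1) ha e he (goodE_sL σ a L _ _ hg) (R * B) e' he'
  refine ⟨K0 + (∑ σ, K σ) + 1, fun D x hD hx hDx hlg => ?_⟩
  by_contra hcon
  push Not at hcon
  obtain ⟨σ, hσ⟩ := h0 D x (fun g => by have := hD g; omega) hDx (Fe e)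
    (fun i m => Fe_norm e i m) hcon
  have hKσ : K σ ≤ ∑ σ, K σ :=
    Finset.single_le_sum (f := K) (fun _ _ => Nat.zero_le _) (Finset.mem_univ σ)
  have hBD : ∀ q : Fin s × Fin r, D q.1 ≤ B * D q.1 := fun q => Nat.le_mul_of_pos_left _ hB
  have h2 := hK σ (fun q => B * D q.1) x (fun q => by have := hD q.1; have := hBD q; omega)
    (by omega) (fun q => by
      calc B * D q.1 ≤ B * (R * x) := Nat.mul_le_mul_left _ (hDx _)
        _ = R * B * x := by ring) (fun q hq => by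
      calc x ≤ R * D q.1 := hlg _ hq
        _ ≤ R * D q.1 * (B * B) := Nat.le_mul_of_pos_right _ (Nat.mul_pos hB hB)
        _ = R * B * (B * D q.1) := by ring)
  have hP : (0 : ℝ) < ∏ q : Fin s × Fin r, ((B * D q.1 : ℕ) : ℝ) :=
    Finset.prod_pos fun q _ => by
      have := hD q.1
      have := hBD q
      exact_mod_cast (by omega : 0 < B * D q.1)
  unfold ER at h2
  rw [div_le_iff₀ hP] at h2
  linarith

end

section

variable {s r k : ℕ}

/-- the number of the `n ≤ x` with a given pattern of values -/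
noncomputable def cntw (a : Fin k → ℤ) (L : Fin k → Fin s → Fin r → ℤ) (v : Fin k → ℤ) (x : ℕ)
    (y : Fin s → Fin r → ℤ) : ℕ :=
  ((Icc (1 : ℤ) x).filter (fun n => ∀ i,
    ArithmeticFunction.moebius (a i * n + ∑ g, ∑ u, L i g u * y g u).natAbs = v i)).card

/-- the number of the `n ≤ x` with a given pattern of squares -/
noncomputable def cntqw (a : Fin k → ℤ) (L : Fin k → Fin s → Fin r → ℤ) (v : Fin k → ℤ) (x : ℕ)
    (y : Fin s → Fin r → ℤ) : ℕ :=
  ((Icc (1 : ℤ) x).filter (fun n => ∀ i,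
    ArithmeticFunction.moebius (a i * n + ∑ g, ∑ u, L i g u * y g u).natAbs ^ 2 = v i ^ 2)).card

/-- the sums -/
noncomputable def smw (a : Fin k → ℤ) (L : Fin k → Fin s → Fin r → ℤ) (e : Fin k → ℕ) (x : ℕ)
    (y : Fin s → Fin r → ℤ) : ℂ :=
  ∑ n ∈ Icc (1 : ℤ) x, ∏ i, mu (a i * n + ∑ g, ∑ u, L i g u * y g u) ^ (e i)

open Pool.Agent.N788.MuDil2 (co co_ind moebius_tri)
open Pool.Agent.N788.Even (co2 co2_ind wt wt_co co2_one)

lemma cntw_eq (a : Fin k → ℤ) (L : Fin k → Fin s → Fin r → ℤ) (v : Fin k → ℤ)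
    (hv : ∀ i, v i = 0 ∨ v i = 1 ∨ v i = -1) (x : ℕ) (y : Fin s → Fin r → ℤ) :
    (cntw a L v x y : ℂ) = ∑ e ∈ Fintype.piFinset (fun _ : Fin k => range 3),
      (∏ i, co (v i) (e i)) * smw a L e x y := by
  classical
  unfold cntw smw
  rw [Finset.card_filter]
  push_cast
  simp only [Finset.mul_sum]
  rw [Finset.sum_comm]
  apply Finset.sum_congr rfl
  intro n _
  have h1 : (if ∀ i, ArithmeticFunction.moebius (a i * n + ∑ g, ∑ u, L i g u * y g u).natAbs = v i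
      then (1 : ℂ) else 0)
      = ∏ i, (if ArithmeticFunction.moebius (a i * n + ∑ g, ∑ u, L i g u * y g u).natAbs = v i
        then (1 : ℂ) else 0) := by
    rw [Finset.prod_ite_zero]
    simp
  rw [h1]
  have h2 : ∀ i, (if ArithmeticFunction.moebius
        (a i * n + ∑ g, ∑ u, L i g u * y g u).natAbs = v i
      then (1 : ℂ) else 0)
      = ∑ j ∈ range 3, co (v i) j * mu (a i * n + ∑ g, ∑ u, L i g u * y g u) ^ j := fun i =>
    co_ind (v i) (hv i) _ (moebius_tri _)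
  simp only [h2]
  rw [Finset.prod_univ_sum]
  apply Finset.sum_congr rfl
  intro e _
  rw [Finset.prod_mul_distrib]

lemma cntqw_eq (a : Fin k → ℤ) (L : Fin k → Fin s → Fin r → ℤ) (v : Fin k → ℤ)
    (hv : ∀ i, v i = 0 ∨ v i = 1 ∨ v i = -1) (x : ℕ) (y : Fin s → Fin r → ℤ) :
    (cntqw a L v x y : ℂ) = ∑ e ∈ Fintype.piFinset (fun _ : Fin k => range 3),
      (∏ i, co2 (v i) (e i)) * smw a L e x y := by
  classical
  unfold cntqw smw
  rw [Finset.card_filter]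
  push_cast
  simp only [Finset.mul_sum]
  rw [Finset.sum_comm]
  apply Finset.sum_congr rfl
  intro n _
  have h1 : (if ∀ i, ArithmeticFunction.moebius
        (a i * n + ∑ g, ∑ u, L i g u * y g u).natAbs ^ 2 = v i ^ 2
      then (1 : ℂ) else 0)
      = ∏ i, (if ArithmeticFunction.moebius
        (a i * n + ∑ g, ∑ u, L i g u * y g u).natAbs ^ 2 = v i ^ 2
        then (1 : ℂ) else 0) := by
    rw [Finset.prod_ite_zero]
    simp
  rw [h1]
  have h2 : ∀ i, (if ArithmeticFunction.moebius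
        (a i * n + ∑ g, ∑ u, L i g u * y g u).natAbs ^ 2 = v i ^ 2
      then (1 : ℂ) else 0)
      = ∑ j ∈ range 3, co2 (v i) j * mu (a i * n + ∑ g, ∑ u, L i g u * y g u) ^ j := fun i =>
    co2_ind (v i) (hv i) _ (moebius_tri _)
  simp only [h2]
  rw [Finset.prod_univ_sum]
  apply Finset.sum_congr rfl
  intro e _
  rw [Finset.prod_mul_distrib]

lemma diff_le (a : Fin k → ℤ) (L : Fin k → Fin s → Fin r → ℤ) (v : Fin k → ℤ)
    (hv : ∀ i, v i = 0 ∨ v i = 1 ∨ v i = -1) (x : ℕ) (y : Fin s → Fin r → ℤ) :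
    |(2 : ℝ) ^ (univ.filter (fun i => v i ≠ 0)).card * cntw a L v x y - cntqw a L v x y| ≤
      ∑ e ∈ (Fintype.piFinset (fun _ : Fin k => range 3)).filter (fun e => ∃ i, e i = 1),
        ‖smw a L e x y‖ := by
  classical
  set E := Fintype.piFinset (fun _ : Fin k => range 3) with hE
  have hEm : ∀ e ∈ E, ∀ i, e i < 3 := fun e he i => mem_range.1 (Fintype.mem_piFinset.1 he i)
  have hw : (∏ i, wt (v i)) = (2 : ℂ) ^ (univ.filter (fun i => v i ≠ 0)).card := by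
    unfold wt
    rw [Finset.prod_ite, Finset.prod_const_one, one_mul, Finset.prod_const]
  have h1 : (((2 : ℝ) ^ (univ.filter (fun i => v i ≠ 0)).card * cntw a L v x y
      - cntqw a L v x y : ℝ) : ℂ) =
      ∑ e ∈ E, ((∏ i, (wt (v i) * co (v i) (e i))) - ∏ i, co2 (v i) (e i)) * smw a L e x y := by
    have h2 := cntw_eq a L v hv x y
    have h3 := cntqw_eq a L v hv x y
    push_cast
    rw [h2, h3, ← hw, Finset.mul_sum, ← Finset.sum_sub_distrib]
    apply Finset.sum_congr rfl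
    intro e _
    rw [Finset.prod_mul_distrib]
    ring
  have h5 : |(2 : ℝ) ^ (univ.filter (fun i => v i ≠ 0)).card * cntw a L v x y
      - cntqw a L v x y| = ‖(((2 : ℝ) ^ (univ.filter (fun i => v i ≠ 0)).card * cntw a L v x y
      - cntqw a L v x y : ℝ) : ℂ)‖ := by
    rw [Complex.norm_real, Real.norm_eq_abs]
  rw [h5, h1, Finset.sum_filter]
  refine (norm_sum_le _ _).trans (Finset.sum_le_sum fun e he => ?_)
  by_cases ho : ∃ i, e i = 1
  · rw [if_pos ho, norm_mul]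
    obtain ⟨i, hi⟩ := ho
    have h6 : ∏ i, co2 (v i) (e i) = 0 :=
      Finset.prod_eq_zero (mem_univ i) (by rw [hi, co2_one])
    rw [h6, sub_zero]
    have h7 : ‖∏ i, (wt (v i) * co (v i) (e i))‖ ≤ 1 := by
      rw [norm_prod]
      refine Finset.prod_le_one (fun _ _ => norm_nonneg _) fun i _ => ?_
      rw [wt_co _ _ (hEm e he i)]
      have h8 := hEm e he i
      unfold co2
      rcases hv i with h | h | h <;> rw [h] <;> interval_cases (e i) <;> norm_num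
    exact mul_le_of_le_one_left (norm_nonneg _) h7
  · rw [if_neg ho]
    push Not at ho
    have h6 : ∏ i, (wt (v i) * co (v i) (e i)) = ∏ i, co2 (v i) (e i) := by
      apply Finset.prod_congr rfl
      intro i _
      rw [wt_co _ _ (hEm e he i), if_neg (ho i), add_zero]
    rw [h6, sub_self, zero_mul, norm_zero]

/-- sums of Möbius values with weights -/
theorem mu_sum (hBLK : S_BLK) (t : Fin s → ℕ) (a : Fin k → ℤ) (L : Fin k → Fin s → Fin r → ℤ)
    (l : ∀ g, Fin (t g) → Fin r → ℤ) (c : ∀ g, Fin (t g) → ℤ)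
    (ha : ∀ i, a i ≠ 0) (hl : ∀ g j, l g j ≠ 0)
    (hNP : ∀ g, NP (l g) (c g)) (lg : Fin s → Bool) (e : Fin k → ℕ) (he : ∀ i, e i ≤ 2)
    (hg : GoodE a (fl L) (fun q => lg q.1) (Finset.univ.filter fun i => e i = 1))
    (R : ℕ) (δ ε : ℝ) (hδ : 0 < δ) (hε : 0 < ε) :
    ∃ K : ℕ, ∀ (D : Fin s → ℕ) (x : ℕ),
      K ≤ x → (∀ g, K ≤ D g) → (∀ g, D g ≤ R * x) → (∀ g, lg g = true → x ≤ R * D g) →
      ∑ y ∈ Fintype.piFinset (fun g => PB r (D g)),
        (∏ g, ∏ j, om δ (D g) (aff (l g j) (c g j) (y g))) * ‖smw a L e x y‖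
        ≤ ε * (x * ∏ g, (D g : ℝ) ^ r) := by
  obtain ⟨K, hK⟩ := mu_w t a (fl L) l c hBLK ha hl hNP lg e he hg R δ ε hδ hε
  refine ⟨K + 1, fun D x hx hD hDx hlg => ?_⟩
  have hx0 : (0 : ℝ) < x := by exact_mod_cast (by omega : 0 < x)
  have h0 := hK D x (fun g => by have := hD g; omega) (by omega) hDx hlg
  have h1 := ws_sum t l c δ D x (smw a L e x)
    (fun y => Pool.Agent.N675.M.cc a (fl L) (Fe e) x (fun q => y q.1 q.2))
    (cc_sum a L (Fe e) x (by omega))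
  refine le_trans (le_of_eq h1) ?_
  calc _ ≤ (x : ℝ) * (ε * ∏ g, (D g : ℝ) ^ r) := mul_le_mul_of_nonneg_left h0 hx0.le
    _ = ε * (x * ∏ g, (D g : ℝ) ^ r) := by ring

/-- patterns of Möbius values with weights -/
theorem mu_pat (hBLK : S_BLK) (t : Fin s → ℕ) (a : Fin k → ℤ) (L : Fin k → Fin s → Fin r → ℤ)
    (l : ∀ g, Fin (t g) → Fin r → ℤ) (c : ∀ g, Fin (t g) → ℤ)
    (ha : ∀ i, a i ≠ 0) (hl : ∀ g j, l g j ≠ 0)
    (hNP : ∀ g, NP (l g) (c g)) (lg : Fin s → Bool)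
    (hg : ∀ E : Finset (Fin k), E.Nonempty → GoodE a (fl L) (fun q => lg q.1) E)
    (R : ℕ) (δ ε : ℝ) (hδ : 0 < δ) (hε : 0 < ε) :
    ∃ K : ℕ, ∀ (D : Fin s → ℕ) (x : ℕ),
      K ≤ x → (∀ g, K ≤ D g) → (∀ g, D g ≤ R * x) → (∀ g, lg g = true → x ≤ R * D g) →
      ∀ v : Fin k → ℤ, (∀ i, v i = 0 ∨ v i = 1 ∨ v i = -1) →
      ∑ y ∈ Fintype.piFinset (fun g => PB r (D g)),
        (∏ g, ∏ j, om δ (D g) (aff (l g j) (c g j) (y g))) *
          |(2 : ℝ) ^ (univ.filter (fun i => v i ≠ 0)).card * cntw a L v x y - cntqw a L v x y|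
        ≤ ε * (x * ∏ g, (D g : ℝ) ^ r) := by
  classical
  set E := Fintype.piFinset (fun _ : Fin k => range 3) with hE
  have hEm : ∀ e ∈ E, ∀ i, e i < 3 := fun e he i => mem_range.1 (Fintype.mem_piFinset.1 he i)
  have hK : ∀ e : Fin k → ℕ, ∃ K : ℕ, e ∈ E → (∃ i, e i = 1) → ∀ (D : Fin s → ℕ) (x : ℕ),
      K ≤ x → (∀ g, K ≤ D g) → (∀ g, D g ≤ R * x) → (∀ g, lg g = true → x ≤ R * D g) →
      ∑ y ∈ Fintype.piFinset (fun g => PB r (D g)),
        (∏ g, ∏ j, om δ (D g) (aff (l g j) (c g j) (y g))) * ‖smw a L e x y‖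
        ≤ (ε / 3 ^ k) * (x * ∏ g, (D g : ℝ) ^ r) := by
    intro e
    by_cases he : e ∈ E
    · by_cases ho : ∃ i, e i = 1
      · obtain ⟨K, h⟩ := mu_sum hBLK t a L l c ha hl hNP lg e
          (fun i => by have := hEm e he i; omega) (hg _ (by
            obtain ⟨i, hi⟩ := ho
            exact ⟨i, by rw [mem_filter]; exact ⟨mem_univ _, hi⟩⟩)) R δ (ε / 3 ^ k) hδ
            (by positivity)
        exact ⟨K, fun _ _ => h⟩
      · exact ⟨0, fun _ h => absurd h ho⟩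
    · exact ⟨0, fun h => absurd h he⟩
  choose K hK using hK
  refine ⟨∑ e ∈ E, K e, fun D x hx hD hDx hlg v hv => ?_⟩
  set W : (Fin s → Fin r → ℤ) → ℝ := fun y => ∏ g, ∏ j, om δ (D g) (aff (l g j) (c g j) (y g))
    with hW
  have hW0 : ∀ y, 0 ≤ W y := fun y =>
    Finset.prod_nonneg fun g _ => Finset.prod_nonneg fun j _ =>
      Pool.Agent.N675.Q.om_nonneg _ _
  calc ∑ y ∈ Fintype.piFinset (fun g => PB r (D g)), W y *
          |(2 : ℝ) ^ (univ.filter (fun i => v i ≠ 0)).card * cntw a L v x y - cntqw a L v x y|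
      ≤ ∑ y ∈ Fintype.piFinset (fun g => PB r (D g)), W y *
          ∑ e ∈ E.filter (fun e => ∃ i, e i = 1), ‖smw a L e x y‖ :=
        Finset.sum_le_sum fun y _ => mul_le_mul_of_nonneg_left (diff_le a L v hv x y) (hW0 y)
    _ = ∑ e ∈ E.filter (fun e => ∃ i, e i = 1), ∑ y ∈ Fintype.piFinset (fun g => PB r (D g)),
          W y * ‖smw a L e x y‖ := by
        rw [Finset.sum_comm]
        refine Finset.sum_congr rfl fun y _ => ?_
        rw [Finset.mul_sum]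
    _ ≤ ∑ e ∈ E.filter (fun e => ∃ i, e i = 1), (ε / 3 ^ k) * (x * ∏ g, (D g : ℝ) ^ r) := by
        apply Finset.sum_le_sum
        intro e he
        rw [mem_filter] at he
        have h1 : K e ≤ ∑ e ∈ E, K e :=
          Finset.single_le_sum (f := K) (fun _ _ => Nat.zero_le _) he.1
        exact hK e he.1 he.2 D x (h1.trans hx) (fun g => h1.trans (hD g)) hDx hlg
    _ ≤ ∑ _e ∈ E, (ε / 3 ^ k) * (x * ∏ g, (D g : ℝ) ^ r) :=
        Finset.sum_le_sum_of_subset_of_nonneg (Finset.filter_subset _ _)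
          fun _ _ _ => by positivity
    _ = ε * (x * ∏ g, (D g : ℝ) ^ r) := by
        rw [Finset.sum_const, hE, Fintype.card_piFinset]
        simp
        field_simp

end

end Pool.Agent.N788.QP
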