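import Mathlib
import Pool.Agent.N788.QP.Mu
import Pool.Agent.N675.M.CluG

/-! The cluster property of the Möbius function. -/

set_option autoImplicit false

namespace Pool.Agent.N788.QP

open Finset Pool.Agent.N675 Pool.Agent.N675.M Pool.Agent.N781.A Pool.Agent.N788.Sys

/-- the Möbius function at the absolute value, as a real number -/
noncomputable def muR (m : ℤ) : ℝ := ((ArithmeticFunction.moebius m.natAbs : ℤ) : ℝ)

lemma muR_le (m : ℤ) : |muR m| ≤ 1 := by
  unfold muR
  rcases Pool.Agent.N788.MuDil2.moebius_tri m.natAbs with h | h | h <;> rw [h] <;> simp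

/-- the cluster property of the Möbius function -/
theorem sg_mu : SG muR := by
  intro κ ι _ _ _ _ a L lg ha hg R ε hε
  have hgE : GoodE a L lg (Finset.univ.filter fun i => (fun _ : ι => 1) i = 1) := by
    have h1 : (Finset.univ.filter fun i => (fun _ : ι => 1) i = 1) = Finset.univ := by
      ext i
      simp
    rw [h1]
    obtain ⟨i₀, hodd | ⟨i₁, hi₁, w, v, hV1, hV0⟩⟩ := hg
    · exact ⟨i₀, Finset.mem_univ _, Or.inl (by rw [Finset.inter_univ]; exact hodd)⟩
    · exact ⟨i₀, Finset.mem_univ _, Or.inr ⟨i₁, by rw [Finset.inter_univ]; exact hi₁, w, v, hV1,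
        fun i hi hne => hV0 i (by rw [Finset.inter_univ] at hi; exact hi) hne⟩⟩
  obtain ⟨K, hK⟩ := mu_good a L lg ha (fun _ => 1) (fun _ => by norm_num) hgE R ε hε
  refine ⟨K, fun B x h1 h2 h3 h4 => ?_⟩
  refine le_trans (le_of_eq ?_) (hK B x h1 h2 h3 h4)
  congr 1
  funext y
  congr 2
  funext i m
  unfold Fe Pool.Agent.N788.MuDil2.mu muR
  rw [pow_one]
  push_cast
  rfl

end Pool.Agent.N788.QP
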